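import Mathlib

set_option autoImplicit false

namespace Pool.Agent.H.MP_220cb1_lc
open Set Filter Topology

noncomputable def e : ℕ ≃ List ℕ := (Denumerable.eqv (List ℕ)).symm

def Wd (f : ℕ → Bool) (n r : ℕ) : Prop :=
  ∀ (l : ℕ) (A : Finset ℕ), (∀ a ∈ A, f a = true ∧ l ≤ (e a).length) →
    (∀ a ∈ A, ∀ b ∈ A, (e a).take n = (e b).take n) →
    (A.image fun a => (e a).take l).card ≤ r

def Fn (f : ℕ → Bool) (n : ℕ) : Prop :=
  ∀ u : List ℕ, {a | f a = true ∧ (e a).take n = u}.Finite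

def I : Set (ℕ → Bool) := {f | ∃ n r, Wd f n r ∧ Fn f n}

theorem le_true {x y : ℕ → Bool} (h : y ≤ x) {a : ℕ} (ha : y a = true) : x a = true := by
  have := h a
  rw [ha] at this
  exact top_le_iff.mp this

theorem wd_le {x y : ℕ → Bool} (h : y ≤ x) {n r : ℕ} (hx : Wd x n r) : Wd y n r :=
  fun l A hA hB => hx l A (fun a ha => ⟨le_true h (hA a ha).1, (hA a ha).2⟩) hB

theorem fn_le {x y : ℕ → Bool} (h : y ≤ x) {n : ℕ} (hx : Fn x n) : Fn y n :=
  fun u => (hx u).subset fun _ ha => ⟨le_true h ha.1, ha.2⟩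

theorem take_of {n m : ℕ} (h : n ≤ m) (s : List ℕ) : s.take n = (s.take m).take n := by
  rw [List.take_take, min_eq_left h]

theorem wd_n {x : ℕ → Bool} {n m r : ℕ} (h : n ≤ m) (hx : Wd x n r) : Wd x m r :=
  fun l A hA hB => hx l A hA fun a ha b hb => by
    rw [take_of h (e a), take_of h (e b), hB a ha b hb]

theorem fn_n {x : ℕ → Bool} {n m : ℕ} (h : n ≤ m) (hx : Fn x n) : Fn x m :=
  fun u => (hx (u.take n)).subset fun a ha => ⟨ha.1, by rw [take_of h (e a), ha.2]⟩

theorem sup_true {x y : ℕ → Bool} {a : ℕ} (h : (x ⊔ y) a = true) : x a = true ∨ y a = true := by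
  have h' : x a ⊔ y a = true := h
  revert h'
  cases x a <;> cases y a <;> simp

theorem wd_sup {x y : ℕ → Bool} {n r s : ℕ} (hx : Wd x n r) (hy : Wd y n s) :
    Wd (x ⊔ y) n (r + s) := by
  classical
  intro l A hA hB
  have h1 := hx l (A.filter fun a => x a = true)
    (fun a ha => ⟨(Finset.mem_filter.mp ha).2, (hA a (Finset.mem_filter.mp ha).1).2⟩)
    (fun a ha b hb => hB a (Finset.mem_filter.mp ha).1 b (Finset.mem_filter.mp hb).1)
  have h2 := hy l (A.filter fun a => y a = true)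
    (fun a ha => ⟨(Finset.mem_filter.mp ha).2, (hA a (Finset.mem_filter.mp ha).1).2⟩)
    (fun a ha b hb => hB a (Finset.mem_filter.mp ha).1 b (Finset.mem_filter.mp hb).1)
  refine le_trans (Finset.card_le_card ?_) ((Finset.card_union_le _ _).trans (add_le_add h1 h2))
  intro v hv
  obtain ⟨a, ha, rfl⟩ := Finset.mem_image.mp hv
  rcases sup_true (hA a ha).1 with h | h
  · exact Finset.mem_union_left _ (Finset.mem_image.mpr ⟨a, Finset.mem_filter.mpr ⟨ha, h⟩, rfl⟩)
  · exact Finset.mem_union_right _ (Finset.mem_image.mpr ⟨a, Finset.mem_filter.mpr ⟨ha, h⟩, rfl⟩)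

theorem fn_sup {x y : ℕ → Bool} {n : ℕ} (hx : Fn x n) (hy : Fn y n) : Fn (x ⊔ y) n :=
  fun u => ((hx u).union (hy u)).subset fun _ ha =>
    (sup_true ha.1).elim (fun h => Or.inl ⟨h, ha.2⟩) (fun h => Or.inr ⟨h, ha.2⟩)

theorem I_le : ∀ x ∈ I, ∀ y : ℕ → Bool, y ≤ x → y ∈ I := by
  rintro x ⟨n, r, h1, h2⟩ y h
  exact ⟨n, r, wd_le h h1, fn_le h h2⟩

theorem I_sup : ∀ x ∈ I, ∀ y ∈ I, x ⊔ y ∈ I := by
  rintro x ⟨n, r, h1, h2⟩ y ⟨m, s, h3, h4⟩
  exact ⟨max n m, r + s, wd_sup (wd_n (le_max_left _ _) h1) (wd_n (le_max_right _ _) h3),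
    fn_sup (fn_n (le_max_left _ _) h2) (fn_n (le_max_right _ _) h4)⟩

theorem I_fin : ∀ x : ℕ → Bool, {n : ℕ | x n = true}.Finite → x ∈ I := by
  intro x hx
  refine ⟨0, hx.toFinset.card, fun l A hA _ => ?_, fun u => hx.subset fun a ha => ha.1⟩
  refine Finset.card_image_le.trans (Finset.card_le_card fun a ha => ?_)
  exact hx.mem_toFinset.mpr (hA a ha).1

theorem key {f : ℕ → Bool} {n r m : ℕ} (h1 : Wd f n r) (h2 : Fn f m) : Fn f n := by
  classical
  intro u
  have hV : ∀ l : ℕ, ((fun a => (e a).take l) ''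
      {a | (f a = true ∧ (e a).take n = u) ∧ l ≤ (e a).length}).Finite := by
    intro l
    by_contra hinf
    obtain ⟨t, ht, hc⟩ := Set.Infinite.exists_subset_card_eq hinf (r + 1)
    obtain ⟨A, hA, rfl⟩ := Finset.subset_set_image_iff.mp ht
    have := h1 l A (fun a ha => ⟨(hA ha).1.1, (hA ha).2⟩)
      (fun a ha b hb => by rw [(hA ha).1.2, (hA hb).1.2])
    omega
  have hfin : (⋃ l ∈ Set.Iic m, ⋃ v ∈ ((fun a => (e a).take l) ''
      {a | (f a = true ∧ (e a).take n = u) ∧ l ≤ (e a).length}),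
      {a | f a = true ∧ (e a).take m = v}).Finite :=
    (Set.finite_Iic m).biUnion fun l _ => (hV l).biUnion fun v _ => h2 v
  refine hfin.subset fun a ha => ?_
  simp only [mem_iUnion]
  refine ⟨min m (e a).length, Set.mem_Iic.mpr (min_le_left _ _), (e a).take (min m (e a).length),
    ⟨a, ⟨ha, min_le_right _ _⟩, rfl⟩, ha.1, ?_⟩
  rcases le_total m (e a).length with h | h
  · rw [min_eq_left h]
  · rw [min_eq_right h, List.take_of_length_le h, List.take_length]

theorem open_true (a : ℕ) : IsOpen {f : ℕ → Bool | f a = true} :=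
  (continuous_apply a (A := fun _ : ℕ => Bool)).isOpen_preimage {true} (isOpen_discrete _)

theorem wd_closed (n r : ℕ) : IsClosed {f | Wd f n r} := by
  unfold Wd
  simp only [setOf_forall (fun (l : ℕ) (f : ℕ → Bool) => ∀ A : Finset ℕ, _)]
  refine isClosed_iInter fun l => ?_
  rw [setOf_forall]
  refine isClosed_iInter fun A => ?_
  refine isClosed_imp ?_ isClosed_const
  have : {f : ℕ → Bool | ∀ a ∈ A, f a = true ∧ l ≤ (e a).length} =
      ⋂ a ∈ A, ({f : ℕ → Bool | f a = true} ∩ {_f | l ≤ (e a).length}) := by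
    ext f; simp
  rw [this]
  exact isOpen_biInter_finset fun a _ => (open_true a).inter isOpen_const

theorem pi3 {ι : Type} [Countable ι] [Nonempty ι] (S : ι → Set (ℕ → Bool))
    (hS : ∀ i, IsGδ (S i)ᶜ) :
    ∃ C : ℕ → ℕ → Set (ℕ → Bool), (∀ i j, IsClosed (C i j)) ∧ (⋂ i, S i) = ⋂ i, ⋃ j, C i j := by
  obtain ⟨g, hg⟩ := exists_surjective_nat ι
  choose U hU hSU using fun i => (hS i).eq_iInter_nat
  refine ⟨fun i j => (U (g i) j)ᶜ, fun i j => (hU _ _).isClosed_compl, ?_⟩
  have : ∀ i, S i = ⋃ j, (U i j)ᶜ := fun i => by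
    rw [← compl_iInter, ← hSU, compl_compl]
  rw [← hg.iInter_comp S]
  exact iInter_congr fun i => this _

theorem I_pi3 : ∃ C : ℕ → ℕ → Set (ℕ → Bool), (∀ i j, IsClosed (C i j)) ∧ I = ⋂ i, ⋃ j, C i j := by
  let S : Option (ℕ × ℕ × List ℕ) → Set (ℕ → Bool) := fun o =>
    match o with
    | none => {f | ∃ n r, Wd f n r}
    | some p => {f | Wd f p.1 p.2.1 → {a | f a = true ∧ (e a).take p.1 = p.2.2}.Finite}
  have hI : I = ⋂ o, S o := by
    ext f
    simp only [mem_iInter]
    constructor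
    · rintro ⟨n, r, h1, h2⟩ o
      cases o with
      | none => exact ⟨n, r, h1⟩
      | some p => exact fun h => key h h2 _
    · intro h
      obtain ⟨n, r, h1⟩ := h none
      exact ⟨n, r, h1, fun u => h (some (n, r, u)) h1⟩
  rw [hI]
  refine pi3 S fun o => ?_
  cases o with
  | none =>
    have : (S none)ᶜ = ⋂ n, ⋂ r, {f | Wd f n r}ᶜ := by
      ext f; simp [S]
    rw [this]
    exact IsGδ.iInter fun n => IsGδ.iInter fun r => (wd_closed n r).isOpen_compl.isGδ
  | some p =>
    have : (S (some p))ᶜ = {f | Wd f p.1 p.2.1} ∩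
        ⋂ N : ℕ, ⋃ a : ℕ, ({f : ℕ → Bool | f a = true} ∩ {_f | (e a).take p.1 = p.2.2 ∧ N < a}) := by
      ext f
      simp only [S, mem_compl_iff, mem_setOf_eq, Classical.not_imp, mem_inter_iff, mem_iInter,
        mem_iUnion]
      refine and_congr_right fun _ => ?_
      constructor
      · intro h N
        obtain ⟨a, ha, hN⟩ := Set.Infinite.exists_gt h N
        exact ⟨a, ha.1, ha.2, hN⟩
      · intro h hfin
        obtain ⟨N, hN⟩ := hfin.bddAbove
        obtain ⟨a, h1, h2, h3⟩ := h N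
        exact absurd (hN ⟨h1, h2⟩) (not_le.mpr h3)
    rw [this]
    exact (wd_closed _ _).isGδ.inter (IsGδ.iInter fun N =>
      (isOpen_iUnion fun a => (open_true a).inter isOpen_const).isGδ)

def pre (y : ℕ → ℕ) (l : ℕ) : List ℕ := (List.range l).map y

theorem pre_len (y : ℕ → ℕ) (l : ℕ) : (pre y l).length = l := by simp [pre]

theorem pre_take (y : ℕ → ℕ) {l m : ℕ} (h : l ≤ m) : (pre y m).take l = pre y l := by
  simp [pre, ← List.map_take, List.take_range, min_eq_left h]

theorem pre_succ (y : ℕ → ℕ) (l : ℕ) : pre y (l + 1) = pre y l ++ [y l] := by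
  simp [pre, List.range_succ]

noncomputable def br (y : ℕ → ℕ) : ℕ → Bool := fun a => decide (e a = pre y (e a).length)

theorem br_not (y : ℕ → ℕ) : br y ∉ I := by
  rintro ⟨n, r, -, h⟩
  refine Set.infinite_of_injective_forall_mem (f := fun j : ℕ => e.symm (pre y (n + j))) ?_ ?_
    (h (pre y n))
  · intro i j hij
    have := congrArg List.length (e.symm.injective hij)
    simpa [pre_len] using this
  · intro j
    refine ⟨?_, ?_⟩
    · simp [br, pre_len]
    · rw [Equiv.apply_symm_apply, pre_take y (Nat.le_add_right _ _)]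

theorem trunc {K : Set (ℕ → Bool)} (hK : IsClosed K) {g : ℕ → Bool} (hg : g ∉ K) :
    ∃ N : ℕ, (fun a => g a && decide (a < N)) ∉ K := by
  by_contra h
  push Not at h
  refine hg (hK.mem_of_tendsto (f := fun (N : ℕ) (a : ℕ) => g a && decide (a < N)) (b := atTop) ?_
    (Eventually.of_forall h))
  refine tendsto_pi_nhds.mpr fun a => ?_
  refine tendsto_const_nhds.congr' ?_
  filter_upwards [eventually_gt_atTop a] with N hN
  simp [hN]

theorem step {K : Set (ℕ → Bool)} (hK : IsClosed K)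
    (hh : ∀ x ∈ K, ∀ y : ℕ → Bool, y ≤ x → y ∈ K)
    (hI : ∀ x ∈ I, ∃ k : ℕ, (fun m => x m && decide (k ≤ m)) ∈ K) (s : List ℕ) :
    ∃ m : ℕ, ∀ y : ℕ → ℕ, pre y (s.length + 1) = s ++ [m] →
      ∃ k : ℕ, (fun a => br y a && decide (k ≤ a)) ∈ K := by
  classical
  by_contra h
  push Not at h
  choose y hy hyK using h
  choose N hN using fun m => trunc hK (hyK m m)
  let T : ℕ → Bool := fun a => decide (∃ m, br (y m) a = true ∧ m ≤ a ∧ a < N m)
  have hT : ∀ a, T a = true → ∃ m, e a = pre (y m) (e a).length ∧ a < N m := by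
    intro a ha
    obtain ⟨m, h1, -, h3⟩ := of_decide_eq_true ha
    exact ⟨m, of_decide_eq_true h1, h3⟩
  have hl : ∀ (a m : ℕ), e a = pre (y m) (e a).length → s.length + 1 ≤ (e a).length →
      (e a).take (s.length + 1) = s ++ [m] := by
    intro a m h1 h2
    rw [h1, pre_take _ h2, hy]
  have hTI : T ∈ I := by
    refine ⟨s.length + 1, 1, fun l A hA hB => ?_, fun u => ?_⟩
    · refine Finset.card_le_one.mpr fun v hv w hw => ?_
      obtain ⟨a, ha, rfl⟩ := Finset.mem_image.mp hv
      obtain ⟨b, hb, rfl⟩ := Finset.mem_image.mp hw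
      obtain ⟨m, h1, -⟩ := hT a (hA a ha).1
      obtain ⟨m', h2, -⟩ := hT b (hA b hb).1
      have hab := hB a ha b hb
      have hlen := congrArg List.length hab
      simp only [List.length_take] at hlen
      by_cases hc : s.length + 1 ≤ (e a).length
      · have hc' : s.length + 1 ≤ (e b).length := by omega
        rw [hl a m h1 hc, hl b m' h2 hc'] at hab
        have hm : m = m' := by simpa using hab
        subst hm
        rw [h1, h2, pre_take _ (hA a ha).2, pre_take _ (hA b hb).2]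
      · have hc' : ¬ s.length + 1 ≤ (e b).length := by omega
        rw [List.take_of_length_le (by omega), List.take_of_length_le (by omega)] at hab
        rw [hab]
    · refine ((Set.finite_singleton (e.symm u)).union
        (Set.finite_Iio (N (u.getD s.length 0)))).subset fun a ha => ?_
      obtain ⟨m, h1, h2⟩ := hT a ha.1
      by_cases hc : s.length + 1 ≤ (e a).length
      · right
        have := hl a m h1 hc
        rw [ha.2] at this
        rw [this]
        simpa using h2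
      · left
        have := ha.2
        rw [List.take_of_length_le (by omega)] at this
        rw [← this]
        simp
  obtain ⟨k, hk⟩ := hI T hTI
  refine hN k (hh _ hk _ fun a => ?_)
  by_cases hc : ((br (y k) a && decide (k ≤ a)) && decide (a < N k)) = true
  · simp only [Bool.and_eq_true, decide_eq_true_eq] at hc
    have : T a = true := decide_eq_true ⟨k, hc.1.1, hc.1.2, hc.2⟩
    simp [this, hc.1.2]
  · simp only [Bool.not_eq_true] at hc
    simp only [hc]
    exact bot_le

theorem not_farah : ¬ ∃ K : ℕ → Set (ℕ → Bool),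
    (∀ n, IsCompact (K n)) ∧
    (∀ n, ∀ x ∈ K n, ∀ y : ℕ → Bool, y ≤ x → y ∈ K n) ∧
    I = {x : ℕ → Bool | ∀ n : ℕ, ∃ k : ℕ, (fun m => x m && decide (k ≤ m)) ∈ K n} := by
  rintro ⟨K, h1, h2, h3⟩
  have hI : ∀ n, ∀ x ∈ I, ∃ k : ℕ, (fun m => x m && decide (k ≤ m)) ∈ K n := by
    intro n x hx
    rw [h3] at hx
    exact hx n
  choose m hm using fun n s => step (h1 n).isClosed (h2 n) (hI n) s
  let s : ℕ → List ℕ := fun n => Nat.rec [] (fun n t => t ++ [m n t]) n
  have hs : ∀ n, s (n + 1) = s n ++ [m n (s n)] := fun n => rfl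
  have hlen : ∀ n, (s n).length = n := by
    intro n
    induction n with
    | zero => rfl
    | succ n ih => rw [hs]; simp [ih]
  let x : ℕ → ℕ := fun n => m n (s n)
  have hx : ∀ n, pre x n = s n := by
    intro n
    induction n with
    | zero => rfl
    | succ n ih => rw [pre_succ, ih, hs]
  refine br_not x ?_
  rw [h3]
  intro n
  refine hm n (s n) x ?_
  rw [hlen, hx, hs]

end Pool.Agent.H.MP_220cb1_lc
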